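import Pool.Agent.H29.FX.TargetsQ

/-!
Row NUQ: near-units from valuations.
-/

set_option autoImplicit false

open Finset MvPolynomial
open Pool.Agent.H29.FX

namespace Pool.Agent.H64.TFX

theorem pf_NUQ : T_NUQ := by
  intro Q v S N hQ hN
  have hd : Int.gcd N ((Q : ℤ) ^ S) ∣ Q ^ v := by
    rw [Nat.dvd_iff_prime_pow_dvd_dvd]
    intro l k hl hk
    rcases Nat.eq_zero_or_pos k with rfl | hk0
    · simp
    have h1 : ((l ^ k : ℕ) : ℤ) ∣ N := (Int.natCast_dvd_natCast.2 hk).trans (Int.gcd_dvd_left ..)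
    have h2 : l ^ k ∣ Q ^ S := by
      have h3 : ((l ^ k : ℕ) : ℤ) ∣ (Q : ℤ) ^ S :=
        (Int.natCast_dvd_natCast.2 hk).trans (Int.gcd_dvd_right ..)
      exact_mod_cast h3
    have hlQ : l ∣ Q := hl.dvd_of_dvd_pow ((dvd_pow_self l hk0.ne').trans h2)
    have hkv : k ≤ v := by
      by_contra hcon
      push Not at hcon
      refine hN l hl hlQ ?_
      push_cast at h1
      exact (pow_dvd_pow _ hcon).trans h1
    exact (pow_dvd_pow l hkv).trans (pow_dvd_pow_of_dvd hlQ v)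
  obtain ⟨e, he⟩ := hd
  refine ⟨Int.gcdA N ((Q : ℤ) ^ S) * e, ?_⟩
  have hb := Int.gcd_eq_gcd_ab N ((Q : ℤ) ^ S)
  have he' : (Q : ℤ) ^ v = (Int.gcd N ((Q : ℤ) ^ S) : ℤ) * e := by exact_mod_cast he
  refine ⟨-(Int.gcdB N ((Q : ℤ) ^ S) * e), ?_⟩
  rw [he', hb]
  ring

end Pool.Agent.H64.TFX
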